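import Pool.Agent.E8helper50.SR.S

/-!
# Project SR, piece TWA (helper66)
-/

set_option autoImplicit false

universe u v

namespace Pool.Agent.E8helper66.SR

open Pool.Agent.E8helper50.SR

lemma wprod_map {R S : Type v} [Mul R] [Mul S] (φ : R → S) (hφ : ∀ x y, φ (x * y) = φ x * φ y) :
    ∀ (n : ℕ) (z : Fin (n + 1) → R), wprod n (fun i => φ (z i)) = φ (wprod n z) := by
  intro n
  induction n with
  | zero => intro z; rfl
  | succ n ih =>
    intro z
    show wprod n (fun i => φ (z i.castSucc)) * φ (z (Fin.last (n + 1))) = φ (wprod n (fun i => z i.castSucc) * z (Fin.last (n + 1)))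
    rw [ih (fun i => z i.castSucc), hφ]

lemma lift_map {R S : Type v} [Semigroup R] [Semigroup S] (φ : R → S)
    (hφ : ∀ x y, φ (x * y) = φ x * φ y) {ι : Type} (b : ι → R) (w : FreeSemigroup ι) :
    FreeSemigroup.lift (fun i => φ (b i)) w = φ (FreeSemigroup.lift b w) := by
  induction w using FreeSemigroup.recOnMul with
  | ih1 x => simp
  | ih2 x y h1 h2 => rw [map_mul, map_mul, hφ, h1, h2]

/-- the even part as a subalgebra -/
def ev0 {K : Type u} [Field K] (A : SAlg K) : NonUnitalSubalgebra K A :=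
  { A.gr 0 with
    mul_mem' := by
      intro a b ha hb
      have := A.mul_mem 0 0 a b ha hb
      rwa [add_zero] at this }

theorem t_TWA : S_TWO.{u} → S_TWA.{u} := by
  intro h K _ _ A _
  have hmem : ∀ x : A, x ∈ ev0 A ↔ x ∈ A.gr 0 := fun x => Iff.rfl
  have : Module.Finite K (ev0 A) := by
    have : Module.Finite K (A.gr 0) := inferInstance
    exact this
  obtain ⟨b, J, m, h1, h2, h3⟩ := h K (ev0 A)
  let φ : ev0 A →ₗ[K] A :=
    { toFun := Subtype.val, map_add' := fun _ _ => rfl, map_smul' := fun _ _ => rfl }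
  have hφ : ∀ x y, φ (x * y) = φ x * φ y := fun _ _ => rfl
  refine ⟨fun i => φ (b i), J.map φ, m, fun i => (b i).2, ?_, ?_, ?_, ?_⟩
  · rintro _ ⟨z, -, rfl⟩
    exact z.2
  · rintro a ha _ ⟨z, hz, rfl⟩
    obtain ⟨k1, k2⟩ := h1 ⟨a, ha⟩ z hz
    exact ⟨⟨_, k1, rfl⟩, ⟨_, k2, rfl⟩⟩
  · intro z hz
    choose y hy hy2 using hz
    have e : z = fun i => φ (y i) := funext fun i => (hy2 i).symm
    rw [e, wprod_map φ hφ, h2 y hy, map_zero]
  · intro x hx
    obtain ⟨y, hy, z, hz, e⟩ := Submodule.mem_sup.1 (h3 ⟨x, hx⟩)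
    refine Submodule.mem_sup.2 ⟨φ y, ?_, φ z, ⟨z, hz, rfl⟩, ?_⟩
    · have : φ y ∈ (Submodule.span K (Set.range (FreeSemigroup.lift b))).map φ := ⟨y, hy, rfl⟩
      rw [Submodule.map_span] at this
      refine Submodule.span_mono ?_ this
      rintro _ ⟨_, ⟨w, rfl⟩, rfl⟩
      exact ⟨w, lift_map φ hφ b w⟩
    · rw [← map_add, e]; rfl

end Pool.Agent.E8helper66.SR

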